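import Mathlib
import Pool.Agent.R488.TM

/-!
# Ratios of consecutive terms of the twisted Fibonacci sequence along residue classes

`x n = X n / Y n` satisfies `x (n + 1) = st (t (n + 1) t n) (x n)`, and `x (m + j) = Φ j (x m)`
when `2 ^ k ∣ m` and `j < 2 ^ k`; `Φ j` is increasing if `t j = 1` and decreasing if `t j = -1`.
-/

set_option autoImplicit false

namespace Pool.Agent.U342.TMQ

open Pool.Agent.R488.TM

/-- one step of the ratio -/
def st (e : ℤ) (z : ℚ) : ℚ := ((1 + e) * z + 1) / (z + 1)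

/-- the composition of the first `n` steps -/
def Φ : ℕ → ℚ → ℚ
  | 0, z => z
  | n + 1, z => st (t (n + 1) * t n) (Φ n z)

/-- the ratio `X n / Y n` -/
def x (n : ℕ) : ℚ := (X n : ℚ) / Y n

lemma Xn (n : ℕ) : (0 : ℚ) ≤ X n := by exact_mod_cast (XY_pos n).1
lemma Yp (n : ℕ) : (0 : ℚ) < Y n := by
  have := (XY_pos n).2.1
  exact_mod_cast (by omega : 0 < Y n)

lemma x_nonneg (n : ℕ) : 0 ≤ x n := div_nonneg (Xn n) (Yp n).le

lemma x_ge {n : ℕ} (hn : 1 ≤ n) : 1 / 3 ≤ x n := by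
  have h := (XY_pos n).2.2.2 hn
  have h' : (Y n : ℚ) ≤ 3 * X n := by exact_mod_cast h
  unfold x
  rw [div_le_div_iff₀ (by norm_num) (Yp n)]
  linarith

lemma x_le (n : ℕ) : x n ≤ 2 := by
  have h := (XY_pos n).2.2.1
  have h' : (X n : ℚ) ≤ 2 * Y n := by exact_mod_cast h
  unfold x
  rw [div_le_iff₀ (Yp n)]
  linarith

lemma x_succ (n : ℕ) : x (n + 1) = st (t (n + 1) * t n) (x n) := by
  have h1 := Xn n
  have h2 := Yp n
  unfold x st
  rw [X_succ, Y_succ]
  push_cast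
  have h3 : (X n : ℚ) + Y n ≠ 0 := by positivity
  field_simp

lemma st_nonneg {e : ℤ} (he : e = 1 ∨ e = -1) {z : ℚ} (hz : 0 ≤ z) : 0 ≤ st e z := by
  unfold st
  rcases he with rfl | rfl
  · push_cast; positivity
  · push_cast
    have : (1 + -1 : ℚ) * z + 1 = 1 := by ring
    rw [this]; positivity

lemma st_one (z : ℚ) (hz : 0 ≤ z) : st 1 z = 2 - 1 / (z + 1) := by
  unfold st
  have : z + 1 ≠ 0 := by positivity
  push_cast
  field_simp
  ring

lemma st_neg (z : ℚ) : st (-1) z = 1 / (z + 1) := by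
  unfold st
  push_cast
  congr 1
  ring

lemma Φ_nonneg (n : ℕ) {z : ℚ} (hz : 0 ≤ z) : 0 ≤ Φ n z := by
  induction n with
  | zero => exact hz
  | succ n ih => exact st_nonneg (tt_cases _ _) ih

lemma x_zero : x 0 = 0 := by unfold x; rw [X_zero]; simp

lemma x_eq (n : ℕ) : x n = Φ n 0 := by
  induction n with
  | zero => exact x_zero
  | succ n ih => rw [x_succ, ih]; rfl

lemma shift {k m : ℕ} (hm : 2 ^ k ∣ m) : ∀ j : ℕ, j < 2 ^ k → x (m + j) = Φ j (x m) := by
  intro j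
  induction j with
  | zero => intro _; rfl
  | succ j ih =>
    intro hj
    have h1 := ih (by omega)
    rw [← Nat.add_assoc, x_succ, h1]
    have h2 : t (m + j + 1) * t (m + j) = t (j + 1) * t j := by
      rw [Nat.add_assoc, t_add_dvd hm hj, t_add_dvd hm (by omega : j < 2 ^ k)]
      linear_combination t (j + 1) * t j * t_sq m
    rw [h2]
    rfl

lemma st1_lt {z z' : ℚ} (h0 : 0 ≤ z) (h : z < z') : st 1 z < st 1 z' := by
  rw [st_one z h0, st_one z' (h0.trans h.le)]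
  have : 1 / (z' + 1) < 1 / (z + 1) := one_div_lt_one_div_of_lt (by linarith) (by linarith)
  linarith

lemma stn_lt {z z' : ℚ} (h0 : 0 ≤ z) (h : z < z') : st (-1) z' < st (-1) z := by
  rw [st_neg, st_neg]
  exact one_div_lt_one_div_of_lt (by linarith) (by linarith)

lemma mono_aux (j : ℕ) :
    (t j = 1 → ∀ z z' : ℚ, 0 ≤ z → z < z' → Φ j z < Φ j z') ∧
    (t j = -1 → ∀ z z' : ℚ, 0 ≤ z → z < z' → Φ j z' < Φ j z) := by
  induction j with
  | zero =>
    refine ⟨fun _ z z' _ h => h, fun h => ?_⟩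
    rw [t_zero] at h
    norm_num at h
  | succ j ih =>
    obtain ⟨ih1, ih2⟩ := ih
    have key : ∀ z, Φ (j + 1) z = st (t (j + 1) * t j) (Φ j z) := fun z => rfl
    rcases t_cases j with hj | hj
    · refine ⟨fun h z z' h0 hz => ?_, fun h z z' h0 hz => ?_⟩
      · rw [key, key, h, hj]
        exact st1_lt (Φ_nonneg j h0) (ih1 hj z z' h0 hz)
      · rw [key, key, h, hj]
        exact stn_lt (Φ_nonneg j h0) (ih1 hj z z' h0 hz)
    · refine ⟨fun h z z' h0 hz => ?_, fun h z z' h0 hz => ?_⟩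
      · rw [key, key, h, hj]
        exact stn_lt (Φ_nonneg j (h0.trans hz.le)) (ih2 hj z z' h0 hz)
      · rw [key, key, h, hj]
        exact st1_lt (Φ_nonneg j (h0.trans hz.le)) (ih2 hj z z' h0 hz)

lemma Φ_lt {j : ℕ} (hj : t j = 1) {z z' : ℚ} (h0 : 0 ≤ z) (h : z < z') : Φ j z < Φ j z' :=
  (mono_aux j).1 hj z z' h0 h

lemma Φ_gt {j : ℕ} (hj : t j = -1) {z z' : ℚ} (h0 : 0 ≤ z) (h : z < z') : Φ j z' < Φ j z :=
  (mono_aux j).2 hj z z' h0 h

lemma Φ_le {j : ℕ} (hj : t j = 1) {z z' : ℚ} (h0 : 0 ≤ z) (h : z ≤ z') : Φ j z ≤ Φ j z' := by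
  rcases h.eq_or_lt with rfl | h
  · exact le_rfl
  · exact (Φ_lt hj h0 h).le

lemma Φ_ge {j : ℕ} (hj : t j = -1) {z z' : ℚ} (h0 : 0 ≤ z) (h : z ≤ z') : Φ j z' ≤ Φ j z := by
  rcases h.eq_or_lt with rfl | h
  · exact le_rfl
  · exact (Φ_gt hj h0 h).le

lemma t_pred (v : ℕ) : t (2 ^ v - 1) = (-1) ^ v := by
  induction v with
  | zero => simp [t_zero]
  | succ v ih =>
    have h : 2 ^ (v + 1) - 1 = 2 * (2 ^ v - 1) + 1 := by
      have : 1 ≤ 2 ^ v := Nat.one_le_two_pow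
      rw [pow_succ]
      omega
    rw [h, t_odd, ih, pow_succ]
    ring

lemma t_pow (v : ℕ) : t (2 ^ v) = -1 := by
  induction v with
  | zero => exact (t_odd 0).trans (by rw [t_zero])
  | succ v ih => rw [pow_succ, mul_comm, t_even, ih]

/-- the sign of the step that leads to `n = 2 ^ v (2 c + 1)` -/
lemma tau (v c : ℕ) : t (2 ^ v * (2 * c + 1)) * t (2 ^ v * (2 * c + 1) - 1) = -(-1) ^ v := by
  have h1 : t (2 ^ v * (2 * c + 1)) = -t c := by
    have := t_add v (2 * c + 1) 0 (by positivity)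
    rw [Nat.add_zero, t_zero, mul_one] at this
    rw [this, t_odd]
  have h2 : 2 ^ v * (2 * c + 1) - 1 = 2 ^ v * (2 * c) + (2 ^ v - 1) := by
    have : 1 ≤ 2 ^ v := Nat.one_le_two_pow
    rw [mul_add, mul_one]
    omega
  have h3 : 2 ^ v - 1 < 2 ^ v := by
    have : 1 ≤ 2 ^ v := Nat.one_le_two_pow
    omega
  rw [h1, h2, t_add v (2 * c) (2 ^ v - 1) h3, t_even, t_pred]
  linear_combination (-(-1) ^ v) * t_sq c

lemma x_step {n : ℕ} (hn : 1 ≤ n) : x n = st (t n * t (n - 1)) (x (n - 1)) := by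
  obtain ⟨m, rfl⟩ : ∃ m, n = m + 1 := ⟨n - 1, by omega⟩
  rw [x_succ, Nat.add_sub_cancel]

/-- `n` before a multiple of `2 ^ j` -/
lemma x_pred {j n : ℕ} (hn : 1 ≤ n) (hd : 2 ^ j ∣ n) :
    x (n - 1) = Φ (2 ^ j - 1) (x (n - 2 ^ j)) := by
  have h1 : 1 ≤ 2 ^ j := Nat.one_le_two_pow
  have h2 : 2 ^ j ≤ n := Nat.le_of_dvd hn hd
  have h3 : n - 1 = (n - 2 ^ j) + (2 ^ j - 1) := by omega
  rw [h3]
  exact shift (Nat.dvd_sub hd dvd_rfl) _ (by omega)

/-- the second largest value in the class of the multiples of `2 ^ k` -/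
def U (j : ℕ) : ℚ := max 1 (st 1 (Φ (2 ^ j - 1) (1 / 3)))

lemma U_pos (j : ℕ) : 1 ≤ U j := le_max_left _ _

lemma x_two_pow {j : ℕ} (hj : Odd j) : x (2 ^ j) = st 1 (Φ (2 ^ j - 1) 0) := by
  have h1 : 1 ≤ 2 ^ j := Nat.one_le_two_pow
  rw [x_step h1]
  have h2 := tau j 0
  rw [Nat.mul_zero, Nat.zero_add, mul_one, hj.neg_one_pow, neg_neg] at h2
  rw [h2, x_pred h1 (dvd_refl (2 ^ j)), Nat.sub_self, x_zero]

lemma U_lt {j : ℕ} (hj : Odd j) : U j < x (2 ^ j) := by
  have ht : t (2 ^ j - 1) = -1 := by rw [t_pred, hj.neg_one_pow]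
  have h1 : Φ (2 ^ j - 1) (1 / 3) < Φ (2 ^ j - 1) 0 := Φ_gt ht le_rfl (by norm_num)
  have h2 : 0 ≤ Φ (2 ^ j - 1) (1 / 3) := Φ_nonneg _ (by norm_num)
  rw [x_two_pow hj]
  refine max_lt ?_ (st1_lt h2 h1)
  have h3 : 0 < Φ (2 ^ j - 1) 0 := lt_of_le_of_lt h2 h1
  rw [st_one _ h3.le]
  have : 1 / (Φ (2 ^ j - 1) 0 + 1) < 1 := by
    rw [div_lt_one (by linarith)]
    linarith
  linarith

/-- the largest value over the multiples of `2 ^ k` -/
lemma up {k j n : ℕ} (hj : Odd j) (hkj : j = k ∨ j = k + 1) (hn : 1 ≤ n) (hd : 2 ^ k ∣ n) :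
    n = 2 ^ j ∨ x n ≤ U j := by
  obtain ⟨v, c, hc, rfl⟩ := Nat.exists_eq_two_pow_mul_odd (by omega : n ≠ 0)
  obtain ⟨c, rfl⟩ := hc
  have hkv : k ≤ v := by
    have h1 : 2 ^ k ∣ 2 ^ v := by
      have : Nat.Coprime (2 ^ k) (2 * c + 1) := by
        apply Nat.Coprime.pow_left
        rw [Nat.coprime_two_left]
        exact ⟨c, rfl⟩
      exact this.dvd_of_dvd_mul_right hd
    exact (Nat.pow_dvd_pow_iff_le_right (by norm_num)).1 h1
  rcases Nat.even_or_odd v with hv | hv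
  · right
    refine le_trans ?_ (U_pos j)
    rw [x_step hn, tau, hv.neg_one_pow, st_neg, div_le_one (by linarith [x_nonneg (2 ^ v * (2 * c + 1) - 1)])]
    linarith [x_nonneg (2 ^ v * (2 * c + 1) - 1)]
  · have hjv : j ≤ v := by
      rcases hkj with rfl | rfl
      · exact hkv
      · rcases hkv.eq_or_lt with rfl | h
        · exact absurd hj (by rw [Nat.not_odd_iff_even]; exact hv.add_one)
        · exact h
    have hd' : 2 ^ j ∣ 2 ^ v * (2 * c + 1) := (pow_dvd_pow 2 hjv).mul_right _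
    by_cases he : 2 ^ v * (2 * c + 1) = 2 ^ j
    · exact Or.inl he
    · right
      refine le_trans ?_ (le_max_right _ _)
      rw [x_step hn, tau, hv.neg_one_pow, neg_neg, x_pred hn hd']
      have h2 : 2 ^ j ≤ 2 ^ v * (2 * c + 1) := Nat.le_of_dvd hn hd'
      have ht : t (2 ^ j - 1) = -1 := by rw [t_pred, hj.neg_one_pow]
      have h3 : 1 / 3 ≤ x (2 ^ v * (2 * c + 1) - 2 ^ j) := x_ge (by omega)
      have h4 := Φ_ge ht (by norm_num : (0 : ℚ) ≤ 1 / 3) h3
      have h5 : 0 ≤ Φ (2 ^ j - 1) (x (2 ^ v * (2 * c + 1) - 2 ^ j)) := Φ_nonneg _ (x_nonneg _)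
      rcases h4.eq_or_lt with h4 | h4
      · rw [h4]
      · exact (st1_lt h5 h4).le

lemma exists_odd (k : ℕ) : ∃ j, Odd j ∧ (j = k ∨ j = k + 1) := by
  rcases Nat.even_or_odd k with h | h
  · exact ⟨k + 1, h.add_one, Or.inr rfl⟩
  · exact ⟨k, h, Or.inl rfl⟩

lemma exists_even (k : ℕ) : ∃ e, Even e ∧ (e = k ∨ e = k + 1) := by
  rcases Nat.even_or_odd k with h | h
  · exact ⟨k, h, Or.inl rfl⟩
  · exact ⟨k + 1, h.add_one, Or.inr rfl⟩

/-- the smallest value over the positive multiples of `2 ^ k` -/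
lemma low {k e : ℕ} (he : Even e) (hke : e = k ∨ e = k + 1) :
    ∃ L : ℚ, x (3 * 2 ^ e) < L ∧ ∀ n : ℕ, 1 ≤ n → 2 ^ k ∣ n → n = 3 * 2 ^ e ∨ L ≤ x n := by
  have ht : t (2 ^ e - 1) = 1 := by rw [t_pred, he.neg_one_pow]
  have hpos : 1 ≤ 2 ^ e := Nat.one_le_two_pow
  have hU := U_lt (he.add_one)
  have hU0 : 0 ≤ U (e + 1) := le_trans zero_le_one (U_pos _)
  -- the value at `3 * 2 ^ e`
  have hval : x (3 * 2 ^ e) = 1 / (Φ (2 ^ e - 1) (x (2 ^ (e + 1))) + 1) := by
    have h1 : 3 * 2 ^ e = 2 ^ e * (2 * 1 + 1) := by ring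
    have hn : 1 ≤ 2 ^ e * (2 * 1 + 1) := by omega
    rw [h1, x_step hn, tau, he.neg_one_pow, st_neg, x_pred hn (dvd_mul_right _ _)]
    congr 4
    rw [pow_succ]
    omega
  have hlt : Φ (2 ^ e - 1) (U (e + 1)) < Φ (2 ^ e - 1) (x (2 ^ (e + 1))) := Φ_lt ht hU0 hU
  have h0 : 0 ≤ Φ (2 ^ e - 1) (U (e + 1)) := Φ_nonneg _ hU0
  refine ⟨1 / (Φ (2 ^ e - 1) (U (e + 1)) + 1), ?_, ?_⟩
  · rw [hval]
    exact one_div_lt_one_div_of_lt (by linarith) (by linarith)
  · intro n hn hd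
    obtain ⟨v, c, hc, rfl⟩ := Nat.exists_eq_two_pow_mul_odd (by omega : n ≠ 0)
    obtain ⟨c, rfl⟩ := hc
    have hkv : k ≤ v := by
      have h1 : 2 ^ k ∣ 2 ^ v := by
        have : Nat.Coprime (2 ^ k) (2 * c + 1) := by
          apply Nat.Coprime.pow_left
          rw [Nat.coprime_two_left]
          exact ⟨c, rfl⟩
        exact this.dvd_of_dvd_mul_right hd
      exact (Nat.pow_dvd_pow_iff_le_right (by norm_num)).1 h1
    rcases Nat.even_or_odd v with hv | hv
    · have hev : e ≤ v := by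
        rcases hke with rfl | rfl
        · exact hkv
        · rcases hkv.eq_or_lt with rfl | h
          · exact absurd he (by rw [Nat.not_even_iff_odd]; exact hv.add_one)
          · exact h
      have hd' : 2 ^ e ∣ 2 ^ v * (2 * c + 1) := (pow_dvd_pow 2 hev).mul_right _
      have hle : 2 ^ e ≤ 2 ^ v * (2 * c + 1) := Nat.le_of_dvd hn hd'
      rcases hle.eq_or_lt with heq | hgt
      · right
        rw [x_step hn, tau, hv.neg_one_pow, st_neg, x_pred hn hd', ← heq, Nat.sub_self, x_zero]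
        have h3 : Φ (2 ^ e - 1) 0 ≤ Φ (2 ^ e - 1) (U (e + 1)) := Φ_le ht le_rfl hU0
        have h4 : 0 ≤ Φ (2 ^ e - 1) 0 := Φ_nonneg _ le_rfl
        exact one_div_le_one_div_of_le (by linarith) (by linarith)
      · rcases up (k := e) (he.add_one) (Or.inr rfl)
          (by omega : 1 ≤ 2 ^ v * (2 * c + 1) - 2 ^ e) (Nat.dvd_sub hd' dvd_rfl) with h | h
        · left
          rw [pow_succ] at h
          omega
        · right
          rw [x_step hn, tau, hv.neg_one_pow, st_neg, x_pred hn hd']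
          have h3 := Φ_le ht (x_nonneg _) h
          have h4 : 0 ≤ Φ (2 ^ e - 1) (x (2 ^ v * (2 * c + 1) - 2 ^ e)) :=
            Φ_nonneg _ (x_nonneg _)
          exact one_div_le_one_div_of_le (by linarith) (by linarith)
    · right
      have h5 : 1 ≤ x (2 ^ v * (2 * c + 1)) := by
        rw [x_step hn, tau, hv.neg_one_pow, neg_neg, st_one _ (x_nonneg _)]
        have h6 := x_nonneg (2 ^ v * (2 * c + 1) - 1)
        have : 1 / (x (2 ^ v * (2 * c + 1) - 1) + 1) ≤ 1 := by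
          rw [div_le_one (by linarith)]
          linarith
        linarith
      refine le_trans ?_ h5
      rw [div_le_one (by linarith)]
      linarith

/-- In every residue class modulo a power of two the smallest value of `x` is attained once and
isolated. -/
theorem classMin (k i : ℕ) (hi : i < 2 ^ k) :
    ∃ q : ℕ, 1 ≤ q ∧ q % 2 ^ k = i ∧ ∃ L : ℚ, x q < L ∧
      ∀ n : ℕ, 1 ≤ n → n % 2 ^ k = i → n = q ∨ L ≤ x n := by
  rcases Nat.eq_zero_or_pos i with rfl | hi0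
  · obtain ⟨e, he, hke⟩ := exists_even k
    obtain ⟨L, h1, h2⟩ := low he hke
    have hdv : 2 ^ k ∣ 3 * 2 ^ e := by
      refine Dvd.dvd.mul_left (pow_dvd_pow 2 ?_) 3
      omega
    refine ⟨3 * 2 ^ e, ?_, Nat.mod_eq_zero_of_dvd hdv, L, h1,
      fun n hn hm => h2 n hn (Nat.dvd_of_mod_eq_zero hm)⟩
    have : 1 ≤ 2 ^ e := Nat.one_le_two_pow
    omega
  · have split : ∀ n : ℕ, n % 2 ^ k = i → ∃ m, 2 ^ k ∣ m ∧ n = m + i := by
      intro n hn
      refine ⟨2 ^ k * (n / 2 ^ k), dvd_mul_right _ _, ?_⟩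
      have := Nat.div_add_mod n (2 ^ k)
      omega
    rcases t_cases i with ht | ht
    · refine ⟨i, hi0, Nat.mod_eq_of_lt hi, Φ i (1 / 3), ?_, ?_⟩
      · rw [x_eq]
        exact Φ_lt ht le_rfl (by norm_num)
      · intro n _ hn
        obtain ⟨m, hm, rfl⟩ := split n hn
        rcases Nat.eq_zero_or_pos m with rfl | hm0
        · left; omega
        · right
          rw [shift hm i hi]
          exact Φ_le ht (by norm_num) (x_ge hm0)
    · obtain ⟨j, hj, hkj⟩ := exists_odd k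
      have hdj : 2 ^ k ∣ 2 ^ j := pow_dvd_pow 2 (by omega)
      have hj1 : 1 ≤ 2 ^ j := Nat.one_le_two_pow
      refine ⟨2 ^ j + i, by omega, ?_, Φ i (U j), ?_, ?_⟩
      · rw [Nat.add_mod, Nat.mod_eq_zero_of_dvd hdj, Nat.zero_add, Nat.mod_mod,
          Nat.mod_eq_of_lt hi]
      · rw [shift hdj i hi]
        exact Φ_gt ht (le_trans zero_le_one (U_pos _)) (U_lt hj)
      · intro n _ hn
        obtain ⟨m, hm, rfl⟩ := split n hn
        rcases Nat.eq_zero_or_pos m with rfl | hm0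
        · right
          rw [Nat.zero_add, x_eq]
          exact Φ_ge ht le_rfl (le_trans zero_le_one (U_pos _))
        · rcases up hj hkj hm0 hm with h | h
          · left; omega
          · right
            rw [shift hm i hi]
            exact Φ_ge ht (x_nonneg _) h

/-- In every residue class modulo a power of two the largest value of `x` is attained once and
isolated. -/
theorem classMax (k i : ℕ) (hi : i < 2 ^ k) :
    ∃ q : ℕ, 1 ≤ q ∧ q % 2 ^ k = i ∧ (i = 2 ^ k - 1 → Even k → q = 3 * 2 ^ k - 1) ∧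
      ∃ V : ℚ, 0 < V ∧ V < x q ∧ ∀ n : ℕ, 1 ≤ n → n % 2 ^ k = i → n = q ∨ x n ≤ V := by
  have hk1 : 1 ≤ 2 ^ k := Nat.one_le_two_pow
  have split : ∀ n : ℕ, n % 2 ^ k = i → ∃ m, 2 ^ k ∣ m ∧ n = m + i := by
    intro n hn
    refine ⟨2 ^ k * (n / 2 ^ k), dvd_mul_right _ _, ?_⟩
    have := Nat.div_add_mod n (2 ^ k)
    omega
  obtain ⟨j, hj, hkj⟩ := exists_odd k
  have hdj : 2 ^ k ∣ 2 ^ j := pow_dvd_pow 2 (by omega)
  have hj1 : 1 ≤ 2 ^ j := Nat.one_le_two_pow
  have hU0 : 0 ≤ U j := le_trans zero_le_one (U_pos _)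
  rcases t_cases i with ht | ht
  · refine ⟨2 ^ j + i, by omega, ?_, ?_, max (Φ i (U j)) (1 / 3), ?_, ?_, ?_⟩
    · rw [Nat.add_mod, Nat.mod_eq_zero_of_dvd hdj, Nat.zero_add, Nat.mod_mod,
        Nat.mod_eq_of_lt hi]
    · rintro rfl hk
      have : j = k + 1 := by
        rcases hkj with rfl | rfl
        · exact absurd hj (by rw [Nat.not_odd_iff_even]; exact hk)
        · rfl
      subst this
      rw [pow_succ]
      omega
    · exact lt_of_lt_of_le (by norm_num) (le_max_right _ _)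
    · rw [shift hdj i hi]
      refine max_lt (Φ_lt ht hU0 (U_lt hj)) ?_
      have h1 : x i ≤ Φ i (U j) := by rw [x_eq]; exact Φ_le ht le_rfl hU0
      rcases Nat.eq_zero_or_pos i with rfl | hi0
      · have h2 := U_pos j
        have h3 := U_lt hj
        show 1 / 3 < x (2 ^ j)
        linarith
      · have h2 := x_ge hi0
        have h3 := Φ_lt ht hU0 (U_lt hj)
        linarith
    · intro n hn1 hn
      obtain ⟨m, hm, rfl⟩ := split n hn
      rcases Nat.eq_zero_or_pos m with rfl | hm0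
      · right
        refine le_trans ?_ (le_max_left _ _)
        rw [Nat.zero_add, x_eq]
        exact Φ_le ht le_rfl hU0
      · rcases up hj hkj hm0 hm with h | h
        · left; omega
        · right
          refine le_trans ?_ (le_max_left _ _)
          rw [shift hm i hi]
          exact Φ_le ht (x_nonneg _) h
  · have hi0 : 1 ≤ i := by
      rcases Nat.eq_zero_or_pos i with rfl | h
      · rw [t_zero] at ht; norm_num at ht
      · exact h
    have hpos : 0 < Φ i (1 / 3) := by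
      have h1 := Φ_gt ht (by norm_num : (0 : ℚ) ≤ 1 / 3) (by norm_num : (1 / 3 : ℚ) < 1)
      exact lt_of_le_of_lt (Φ_nonneg _ (by norm_num)) h1
    refine ⟨i, hi0, Nat.mod_eq_of_lt hi, ?_, Φ i (1 / 3), hpos, ?_, ?_⟩
    · rintro rfl hk
      rw [t_pred, hk.neg_one_pow] at ht
      norm_num at ht
    · rw [x_eq]
      exact Φ_gt ht le_rfl (by norm_num)
    · intro n _ hn
      obtain ⟨m, hm, rfl⟩ := split n hn
      rcases Nat.eq_zero_or_pos m with rfl | hm0
      · left; omega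
      · right
        rw [shift hm i hi]
        exact Φ_ge ht (by norm_num) (x_ge hm0)

end Pool.Agent.U342.TMQ
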