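import Mathlib
import Pool.Agent.U342.TMQ.Main

/-!
# The smallest ratio along a residue class is attained and isolated
-/

set_option autoImplicit false

namespace Pool.Agent.U342.TMQ

open Pool.Agent.R488.TM Filter

/-- the ratio `|h (N + 1)| / |h N|` -/
def rho (N : ℕ) : ℚ := |(h (N + 1) : ℚ)| / |(h N : ℚ)|

lemma abs_h (n : ℕ) : |h (4 * n)| = X n ∧ |h (4 * n + 1)| = Y n ∧ |h (4 * n + 2)| = X n + Y n ∧
    |h (4 * n + 3)| = X n := by
  obtain ⟨h0, h1, h2, h3⟩ := h_values n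
  obtain ⟨p1, p2, -, -⟩ := XY_pos n
  have abs_t : |t n| = 1 := by rcases t_cases n with h | h <;> rw [h] <;> rfl
  rw [h0, h1, h2, h3, Y_succ]
  refine ⟨?_, ?_, ?_, ?_⟩
  · rw [abs_neg, abs_of_nonneg p1]
  · rw [abs_mul, abs_t, one_mul, abs_of_nonneg (by omega)]
  · rw [abs_neg, abs_of_nonneg (by omega)]
  · rw [abs_neg, abs_mul, abs_t, one_mul, abs_of_nonneg p1]

lemma Xp {n : ℕ} (hn : 1 ≤ n) : (0 : ℚ) < X n := by
  have h := (XY_pos n).2.2.2 hn
  have h1 := (XY_pos n).2.1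
  exact_mod_cast (by omega : 0 < X n)

lemma x_pos {n : ℕ} (hn : 1 ≤ n) : 0 < x n := div_pos (Xp hn) (Yp n)

lemma cast_abs {a b : ℤ} (h : |a| = b) : |(a : ℚ)| = (b : ℚ) := by
  rw [← Int.cast_abs, h]

lemma rho0 {q : ℕ} : rho (4 * q) = 1 / x q := by
  obtain ⟨h0, h1, -, -⟩ := abs_h q
  unfold rho x
  rw [cast_abs h0, cast_abs h1, one_div_div]

lemma rho1 {q : ℕ} : rho (4 * q + 1) = 1 + x q := by
  obtain ⟨-, h1, h2, -⟩ := abs_h q
  have hy := Yp q
  unfold rho x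
  rw [cast_abs h1, show 4 * q + 1 + 1 = 4 * q + 2 by ring, cast_abs h2]
  push_cast
  field_simp
  ring

lemma rho2 {q : ℕ} : rho (4 * q + 2) = 1 - 1 / (1 + x q) := by
  obtain ⟨-, -, h2, h3⟩ := abs_h q
  have hy := Yp q
  have hx := Xn q
  unfold rho x
  rw [cast_abs h2, show 4 * q + 2 + 1 = 4 * q + 3 by ring, cast_abs h3]
  push_cast
  have h4 : (X q : ℚ) + Y q ≠ 0 := by positivity
  have h5 : 1 + (X q : ℚ) / Y q ≠ 0 := by positivity
  have h6 : (Y q : ℚ) + X q ≠ 0 := by positivity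
  field_simp
  ring

lemma rho3 {q : ℕ} (hq : 1 ≤ q) :
    rho (4 * q + 3) = 1 + (t (q + 1) * t q : ℤ) + 1 / x q := by
  obtain ⟨-, -, -, h3⟩ := abs_h q
  obtain ⟨h0, -, -, -⟩ := abs_h (q + 1)
  have hx := Xp hq
  have hy := Yp q
  unfold rho x
  rw [cast_abs h3, show 4 * q + 3 + 1 = 4 * (q + 1) by ring, cast_abs h0, X_succ]
  push_cast
  field_simp

/-- the smallest ratio over `S` is attained and all but finitely many are larger by `δ` -/
def P (S : Set ℕ) : Prop := ∃ N ∈ S, ∃ δ : ℚ, 0 < δ ∧ ∃ B : ℕ, (∀ M ∈ S, rho N ≤ rho M) ∧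
  ∀ M ∈ S, B < M → rho N + δ ≤ rho M

lemma P_of {S : Set ℕ} {N : ℕ} (hN : N ∈ S) {r : ℚ} (hr : rho N < r)
    (h : ∀ M ∈ S, M = N ∨ r ≤ rho M) : P S := by
  refine ⟨N, hN, r - rho N, by linarith, N, fun M hM => ?_, fun M hM hlt => ?_⟩
  · rcases h M hM with rfl | h'
    · exact le_rfl
    · linarith
  · rcases h M hM with rfl | h'
    · omega
    · linarith

lemma P_union {S T : Set ℕ} (hS : P S) (hT : P T) : P (S ∪ T) := by
  wlog hle : rho hS.choose ≤ rho hT.choose generalizing S T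
  · rw [Set.union_comm]
    exact this hT hS (le_of_lt (not_le.1 hle))
  obtain ⟨hN, δ, hδ, B, h1, h2⟩ := hS.choose_spec
  obtain ⟨hN', δ', hδ', B', h1', h2'⟩ := hT.choose_spec
  refine ⟨hS.choose, Or.inl hN, min δ δ', lt_min hδ hδ', max B B', ?_, ?_⟩
  · rintro M (hM | hM)
    · exact h1 M hM
    · exact hle.trans (h1' M hM)
  · rintro M (hM | hM) hB
    · have := h2 M hM ((le_max_left _ _).trans_lt hB)
      have := min_le_left δ δ'
      linarith
    · have := h2' M hM ((le_max_right _ _).trans_lt hB)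
      have := min_le_right δ δ'
      linarith

/-- the indices in the class `i` modulo `2 ^ K` -/
def Cl (K i : ℕ) : Set ℕ := {N | 4 ≤ N ∧ N % 2 ^ K = i}

lemma mem_Cl {K i c N : ℕ} (hc : c < 4) :
    N ∈ Cl (K + 2) (4 * i + c) ↔ ∃ q, 1 ≤ q ∧ q % 2 ^ K = i ∧ N = 4 * q + c := by
  have h2 : 2 ^ (K + 2) = 4 * 2 ^ K := by ring
  unfold Cl
  rw [Set.mem_setOf_eq, h2, Nat.mod_mul]
  constructor
  · rintro ⟨h4, h⟩
    have h3 : N % 4 = c := by omega
    have h5 : N / 4 % 2 ^ K = i := by omega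
    exact ⟨N / 4, by omega, h5, by omega⟩
  · rintro ⟨q, hq, hm, rfl⟩
    have h6 : (4 * q + c) / 4 = q := by omega
    have h7 : (4 * q + c) % 4 = c := by omega
    rw [h6, h7, hm]
    exact ⟨by omega, by omega⟩

lemma Cl_split {K i : ℕ} (hi : i < 2 ^ K) : Cl K i = Cl (K + 1) i ∪ Cl (K + 1) (i + 2 ^ K) := by
  ext N
  unfold Cl
  rw [Set.mem_union, Set.mem_setOf_eq, Set.mem_setOf_eq, Set.mem_setOf_eq, pow_succ, Nat.mod_mul]
  have h1 : N / 2 ^ K % 2 = 0 ∨ N / 2 ^ K % 2 = 1 := by omega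
  have h2 : N % 2 ^ K < 2 ^ K := Nat.mod_lt _ (by positivity)
  rcases h1 with h | h <;> rw [h] <;> constructor
  · rintro ⟨h3, h4⟩; left; exact ⟨h3, by omega⟩
  · rintro (⟨h3, h4⟩ | ⟨h3, h4⟩)
    · exact ⟨h3, by omega⟩
    · omega
  · rintro ⟨h3, h4⟩; right; exact ⟨h3, by omega⟩
  · rintro (⟨h3, h4⟩ | ⟨h3, h4⟩)
    · omega
    · exact ⟨h3, by omega⟩

lemma P0 {K i : ℕ} (hi : i < 2 ^ K) : P (Cl (K + 2) (4 * i + 0)) := by
  obtain ⟨q, hq1, hqm, -, V, hV0, hV, hall⟩ := classMax K i hi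
  refine P_of (N := 4 * q) ((mem_Cl (by norm_num)).2 ⟨q, hq1, hqm, rfl⟩) (r := 1 / V) ?_ ?_
  · rw [rho0]
    exact one_div_lt_one_div_of_lt hV0 hV
  · intro M hM
    obtain ⟨n, hn1, hnm, rfl⟩ := (mem_Cl (by norm_num)).1 hM
    rcases hall n hn1 hnm with rfl | h
    · left; rfl
    · right
      rw [Nat.add_zero, rho0]
      exact one_div_le_one_div_of_le (x_pos hn1) h

lemma P1 {K i : ℕ} (hi : i < 2 ^ K) : P (Cl (K + 2) (4 * i + 1)) := by
  obtain ⟨q, hq1, hqm, L, hL, hall⟩ := classMin K i hi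
  refine P_of (N := 4 * q + 1) ((mem_Cl (by norm_num)).2 ⟨q, hq1, hqm, rfl⟩) (r := 1 + L) ?_ ?_
  · rw [rho1]
    linarith
  · intro M hM
    obtain ⟨n, hn1, hnm, rfl⟩ := (mem_Cl (by norm_num)).1 hM
    rcases hall n hn1 hnm with rfl | h
    · left; rfl
    · right
      rw [rho1]
      linarith

lemma P2 {K i : ℕ} (hi : i < 2 ^ K) : P (Cl (K + 2) (4 * i + 2)) := by
  obtain ⟨q, hq1, hqm, L, hL, hall⟩ := classMin K i hi
  have hx := x_nonneg q
  refine P_of (N := 4 * q + 2) ((mem_Cl (by norm_num)).2 ⟨q, hq1, hqm, rfl⟩)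
    (r := 1 - 1 / (1 + L)) ?_ ?_
  · rw [rho2]
    have := one_div_lt_one_div_of_lt (by linarith : 0 < 1 + x q) (by linarith : 1 + x q < 1 + L)
    linarith
  · intro M hM
    obtain ⟨n, hn1, hnm, rfl⟩ := (mem_Cl (by norm_num)).1 hM
    rcases hall n hn1 hnm with rfl | h
    · left; rfl
    · right
      rw [rho2]
      have := one_div_le_one_div_of_le (by linarith : 0 < 1 + L) (by linarith : 1 + L ≤ 1 + x n)
      linarith

lemma tt_cast (m n : ℕ) : (0 : ℚ) ≤ 1 + (t m * t n : ℤ) := by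
  rcases tt_cases m n with h | h <;> rw [h] <;> norm_num

/-- the sign of the step from `n` to `n + 1` is constant on a class other than `-1` -/
lemma tau_const {K i n : ℕ} (hi : i + 1 < 2 ^ K) (hn : n % 2 ^ K = i) :
    t (n + 1) * t n = t (i + 1) * t i := by
  obtain ⟨m, hm, rfl⟩ : ∃ m, 2 ^ K ∣ m ∧ n = m + i := by
    refine ⟨2 ^ K * (n / 2 ^ K), dvd_mul_right _ _, ?_⟩
    have := Nat.div_add_mod n (2 ^ K)
    omega
  rw [Nat.add_assoc, t_add_dvd hm hi, t_add_dvd hm (by omega : i < 2 ^ K)]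
  linear_combination t (i + 1) * t i * t_sq m

lemma P3 {K i : ℕ} (hi : i + 1 < 2 ^ K) : P (Cl (K + 2) (4 * i + 3)) := by
  obtain ⟨q, hq1, hqm, -, V, hV0, hV, hall⟩ := classMax K i (by omega)
  refine P_of (N := 4 * q + 3) ((mem_Cl (by norm_num)).2 ⟨q, hq1, hqm, rfl⟩)
    (r := 1 + (t (i + 1) * t i : ℤ) + 1 / V) ?_ ?_
  · rw [rho3 hq1, tau_const hi hqm]
    have := one_div_lt_one_div_of_lt hV0 hV
    linarith
  · intro M hM
    obtain ⟨n, hn1, hnm, rfl⟩ := (mem_Cl (by norm_num)).1 hM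
    rcases hall n hn1 hnm with rfl | h
    · left; rfl
    · right
      rw [rho3 hn1, tau_const hi hnm]
      have := one_div_le_one_div_of_le (x_pos hn1) h
      linarith

lemma P3e {K : ℕ} (hK : Even K) : P (Cl (K + 2) (4 * (2 ^ K - 1) + 3)) := by
  have h1 : 1 ≤ 2 ^ K := Nat.one_le_two_pow
  obtain ⟨q, hq1, hqm, hq, V, hV0, hV, hall⟩ := classMax K (2 ^ K - 1) (by omega)
  have hq' := hq rfl hK
  have htau : t (q + 1) * t q = -1 := by
    have := tau K 1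
    rw [hK.neg_one_pow] at this
    rw [hq']
    have e1 : 3 * 2 ^ K - 1 + 1 = 2 ^ K * (2 * 1 + 1) := by omega
    have e2 : 3 * 2 ^ K - 1 = 2 ^ K * (2 * 1 + 1) - 1 := by omega
    rw [e1, e2]
    exact this
  refine P_of (N := 4 * q + 3) ((mem_Cl (by norm_num)).2 ⟨q, hq1, hqm, rfl⟩) (r := 1 / V) ?_ ?_
  · rw [rho3 hq1, htau]
    have := one_div_lt_one_div_of_lt hV0 hV
    push_cast
    linarith
  · intro M hM
    obtain ⟨n, hn1, hnm, rfl⟩ := (mem_Cl (by norm_num)).1 hM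
    rcases hall n hn1 hnm with rfl | h
    · left; rfl
    · right
      rw [rho3 hn1]
      have := one_div_le_one_div_of_le (x_pos hn1) h
      have := tt_cast (n + 1) n
      linarith

lemma P_two {K i : ℕ} (hi : i < 2 ^ (K + 2)) : P (Cl (K + 2) i) := by
  have h2 : 2 ^ (K + 2) = 4 * 2 ^ K := by ring
  have hi' : i / 4 < 2 ^ K := by omega
  have e : i = 4 * (i / 4) + i % 4 := by omega
  have hc : i % 4 = 0 ∨ i % 4 = 1 ∨ i % 4 = 2 ∨ i % 4 = 3 := by omega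
  rcases hc with hc | hc | hc | hc
  · rw [e, hc]; exact P0 hi'
  · rw [e, hc]; exact P1 hi'
  · rw [e, hc]; exact P2 hi'
  · by_cases h3 : i / 4 + 1 < 2 ^ K
    · rw [e, hc]; exact P3 h3
    · have h4 : i / 4 = 2 ^ K - 1 := by omega
      rcases Nat.even_or_odd K with hK | hK
      · rw [e, hc, h4]; exact P3e hK
      · rw [Cl_split hi]
        refine P_union ?_ ?_
        · have e1 : i = 4 * (2 ^ K - 1) + 3 := by omega
          rw [show K + 2 + 1 = (K + 1) + 2 by ring, e1]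
          refine P3 ?_
          rw [pow_succ]
          omega
        · have e1 : i + 2 ^ (K + 2) = 4 * (2 ^ (K + 1) - 1) + 3 := by
            rw [pow_succ 2 K]
            omega
          rw [show K + 2 + 1 = (K + 1) + 2 by ring, e1]
          exact P3e hK.add_one

theorem P_all {k i : ℕ} (hk : 1 ≤ k) (hi : i < 2 ^ k) : P (Cl k i) := by
  obtain ⟨k, rfl⟩ : ∃ m, k = m + 1 := ⟨k - 1, by omega⟩
  rcases Nat.eq_zero_or_pos k with rfl | hk0
  · rw [Cl_split hi]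
    have : i < 2 := by simpa using hi
    refine P_union (P_two (K := 0) ?_) (P_two (K := 0) ?_)
    · norm_num; omega
    · norm_num; omega
  · obtain ⟨m, rfl⟩ : ∃ m, k = m + 1 := ⟨k - 1, by omega⟩
    exact P_two hi

/-- the ratios `|h (2 ^ k n + i + 1)| / |h (2 ^ k n + i)|` with `2 ^ k n + i ≥ 4` -/
def ratios (k i : ℕ) : Set ℚ :=
  {r | ∃ n : ℕ, 4 ≤ 2 ^ k * n + i ∧
    r = |(h (2 ^ k * n + i + 1) : ℚ)| / |(h (2 ^ k * n + i) : ℚ)|}

/-- the lower limit of these ratios as `n` tends to infinity -/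
noncomputable def lowerLimit (k i : ℕ) : ℝ :=
  liminf (fun n : ℕ => |(h (2 ^ k * n + i + 1) : ℝ)| / |(h (2 ^ k * n + i) : ℝ)|) atTop

lemma h_ne {N : ℕ} (hN : 4 ≤ N) : h N ≠ 0 := by
  obtain ⟨h0, h1, h2, h3⟩ := abs_h (N / 4)
  have hX : 0 < X (N / 4) := by exact_mod_cast Xp (by omega : 1 ≤ N / 4)
  have hY := (XY_pos (N / 4)).2.1
  have hc : N % 4 = 0 ∨ N % 4 = 1 ∨ N % 4 = 2 ∨ N % 4 = 3 := by omega
  have e : N = 4 * (N / 4) + N % 4 := by omega
  intro hz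
  rw [e] at hz
  rcases hc with hc | hc | hc | hc <;> rw [hc] at hz
  · rw [Nat.add_zero] at hz; rw [hz] at h0; simp at h0; omega
  · rw [hz] at h1; simp at h1; omega
  · rw [hz] at h2; simp at h2; omega
  · rw [hz] at h3; simp at h3; omega

lemma rho_le {N : ℕ} (hN : 4 ≤ N) : rho N ≤ 5 := by
  have h1 : 1 ≤ N / 4 := by omega
  have h2 := x_ge h1
  have h3 := x_le (N / 4)
  have h4 : 1 / x (N / 4) ≤ 3 := by
    rw [div_le_iff₀ (by linarith)]
    linarith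
  have hc : N % 4 = 0 ∨ N % 4 = 1 ∨ N % 4 = 2 ∨ N % 4 = 3 := by omega
  have e : N = 4 * (N / 4) + N % 4 := by omega
  rw [e]
  rcases hc with hc | hc | hc | hc <;> rw [hc]
  · rw [Nat.add_zero, rho0]; linarith
  · rw [rho1]; linarith
  · rw [rho2]
    have : 0 < 1 / (1 + x (N / 4)) := by positivity
    linarith
  · rw [rho3 h1]
    rcases tt_cases (N / 4 + 1) (N / 4) with h | h <;> rw [h] <;> push_cast <;> linarith

lemma rho_cast (N : ℕ) : ((rho N : ℚ) : ℝ) = |(h (N + 1) : ℝ)| / |(h N : ℝ)| := by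
  unfold rho
  push_cast
  rfl

theorem least_lt {k i : ℕ} (hk : 1 ≤ k) (hi : i < 2 ^ k) :
    ∃ c : ℚ, IsLeast (ratios k i) c ∧ (c : ℝ) < lowerLimit k i := by
  obtain ⟨N, ⟨hN4, hNm⟩, δ, hδ, B, h1, h2⟩ := P_all hk hi
  have hN : N = 2 ^ k * (N / 2 ^ k) + i := by
    have := Nat.div_add_mod N (2 ^ k)
    omega
  have hmem : ∀ n : ℕ, 4 ≤ 2 ^ k * n + i → 2 ^ k * n + i ∈ Cl k i := fun n hn =>
    ⟨hn, by rw [Nat.mul_add_mod, Nat.mod_eq_of_lt hi]⟩
  refine ⟨rho N, ⟨⟨N / 2 ^ k, by rw [← hN]; exact hN4, by rw [← hN]; rfl⟩, ?_⟩, ?_⟩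
  · rintro r ⟨n, hn, rfl⟩
    exact h1 _ (hmem n hn)
  · have hev : ∀ᶠ n : ℕ in atTop, ((rho N : ℚ) : ℝ) + (δ : ℝ) ≤
        |(h (2 ^ k * n + i + 1) : ℝ)| / |(h (2 ^ k * n + i) : ℝ)| := by
      filter_upwards [eventually_ge_atTop (B + 4)] with n hn
      have h3 : n ≤ 2 ^ k * n := Nat.le_mul_of_pos_left n (by positivity)
      have h4 := h2 _ (hmem n (by omega)) (by omega)
      rw [← rho_cast]
      exact_mod_cast h4
    have hub : ∀ᶠ n : ℕ in atTop,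
        |(h (2 ^ k * n + i + 1) : ℝ)| / |(h (2 ^ k * n + i) : ℝ)| ≤ 5 := by
      filter_upwards [eventually_ge_atTop 4] with n hn
      have h3 : n ≤ 2 ^ k * n := Nat.le_mul_of_pos_left n (by positivity)
      rw [← rho_cast]
      exact_mod_cast rho_le (by omega)
    have hcob : IsCoboundedUnder (· ≥ ·) atTop
        (fun n : ℕ => |(h (2 ^ k * n + i + 1) : ℝ)| / |(h (2 ^ k * n + i) : ℝ)|) :=
      (isBoundedUnder_of_eventually_le hub).isCoboundedUnder_ge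
    have h5 := le_liminf_of_le hcob hev
    have h6 : (0 : ℝ) < δ := by exact_mod_cast hδ
    unfold lowerLimit
    linarith

/-- the smallest ratio along the multiples of `4 · 2 ^ k'` -/
lemma least_zero {k j : ℕ} (hj : Odd j) (hkj : j = k ∨ j = k + 1) :
    IsLeast (ratios (k + 2) 0) (1 / x (2 ^ j)) := by
  have h2 : 2 ^ (k + 2) = 4 * 2 ^ k := by ring
  have h1 : 1 ≤ 2 ^ j := Nat.one_le_two_pow
  constructor
  · refine ⟨2 ^ (j - k), ?_, ?_⟩
    · have e : 2 ^ (k + 2) * 2 ^ (j - k) + 0 = 4 * 2 ^ j := by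
        rw [Nat.add_zero, ← pow_add, show k + 2 + (j - k) = j + 2 by omega]
        ring
      rw [e]
      omega
    · have e : 2 ^ (k + 2) * 2 ^ (j - k) + 0 = 4 * 2 ^ j := by
        rw [Nat.add_zero, ← pow_add, show k + 2 + (j - k) = j + 2 by omega]
        ring
      rw [e, ← rho0]
      rfl
  · rintro r ⟨n, hn, rfl⟩
    have e : 2 ^ (k + 2) * n + 0 = 4 * (2 ^ k * n) := by rw [h2]; ring
    rw [e] at hn ⊢
    have h3 : 1 ≤ 2 ^ k * n := by omega
    have h4 : |(h (4 * (2 ^ k * n) + 1) : ℚ)| / |(h (4 * (2 ^ k * n)) : ℚ)| =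
      1 / x (2 ^ k * n) := rho0
    rw [h4]
    refine one_div_le_one_div_of_le (x_pos h3) ?_
    rcases up hj hkj h3 (dvd_mul_right _ _) with h | h
    · rw [h]
    · exact h.trans (U_lt hj).le

end Pool.Agent.U342.TMQ
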