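import Mathlib
import Pool.Agent.U342.TMQ.Ratio

/-!
# The values for `n = 2, 3, 8, 32`
-/

set_option autoImplicit false

namespace Pool.Agent.U342.TMQ

open Pool.Agent.R488.TM Filter

lemma xy_step {n : ℕ} {a b e : ℤ} (h : X n = a ∧ Y n = b) (he : t (n + 1) * t n = e) :
    X (n + 1) = (1 + e) * a + b ∧ Y (n + 1) = a + b := by
  rw [X_succ, Y_succ, h.1, h.2, he]
  exact ⟨rfl, rfl⟩

lemma xy0 : X 0 = 0 ∧ Y 0 = 1 := ⟨rfl, rfl⟩
lemma xy1 : X 1 = 1 ∧ Y 1 = 1 := by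
  simpa using xy_step (n := 0) (e := -1) xy0 (by decide)
lemma xy2 : X 2 = 3 ∧ Y 2 = 2 := by
  simpa using xy_step (n := 1) (e := 1) xy1 (by decide)
lemma xy3 : X 3 = 2 ∧ Y 3 = 5 := by
  simpa using xy_step (n := 2) (e := -1) xy2 (by decide)
lemma xy4 : X 4 = 5 ∧ Y 4 = 7 := by
  simpa using xy_step (n := 3) (e := -1) xy3 (by decide)
lemma xy5 : X 5 = 7 ∧ Y 5 = 12 := by
  simpa using xy_step (n := 4) (e := -1) xy4 (by decide)
lemma xy6 : X 6 = 26 ∧ Y 6 = 19 := by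
  simpa using xy_step (n := 5) (e := 1) xy5 (by decide)
lemma xy7 : X 7 = 19 ∧ Y 7 = 45 := by
  simpa using xy_step (n := 6) (e := -1) xy6 (by decide)
lemma xy8 : X 8 = 83 ∧ Y 8 = 64 := by
  simpa using xy_step (n := 7) (e := 1) xy7 (by decide)
lemma xy9 : X 9 = 64 ∧ Y 9 = 147 := by
  simpa using xy_step (n := 8) (e := -1) xy8 (by decide)
lemma xy10 : X 10 = 275 ∧ Y 10 = 211 := by
  simpa using xy_step (n := 9) (e := 1) xy9 (by decide)
lemma xy11 : X 11 = 211 ∧ Y 11 = 486 := by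
  simpa using xy_step (n := 10) (e := -1) xy10 (by decide)
lemma xy12 : X 12 = 486 ∧ Y 12 = 697 := by
  simpa using xy_step (n := 11) (e := -1) xy11 (by decide)
lemma xy13 : X 13 = 697 ∧ Y 13 = 1183 := by
  simpa using xy_step (n := 12) (e := -1) xy12 (by decide)
lemma xy14 : X 14 = 2577 ∧ Y 14 = 1880 := by
  simpa using xy_step (n := 13) (e := 1) xy13 (by decide)
lemma xy15 : X 15 = 1880 ∧ Y 15 = 4457 := by
  simpa using xy_step (n := 14) (e := -1) xy14 (by decide)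
lemma xy16 : X 16 = 4457 ∧ Y 16 = 6337 := by
  simpa using xy_step (n := 15) (e := -1) xy15 (by decide)
lemma xy17 : X 17 = 6337 ∧ Y 17 = 10794 := by
  simpa using xy_step (n := 16) (e := -1) xy16 (by decide)
lemma xy18 : X 18 = 23468 ∧ Y 18 = 17131 := by
  simpa using xy_step (n := 17) (e := 1) xy17 (by decide)
lemma xy19 : X 19 = 17131 ∧ Y 19 = 40599 := by
  simpa using xy_step (n := 18) (e := -1) xy18 (by decide)
lemma xy20 : X 20 = 40599 ∧ Y 20 = 57730 := by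
  simpa using xy_step (n := 19) (e := -1) xy19 (by decide)
lemma xy21 : X 21 = 57730 ∧ Y 21 = 98329 := by
  simpa using xy_step (n := 20) (e := -1) xy20 (by decide)
lemma xy22 : X 22 = 213789 ∧ Y 22 = 156059 := by
  simpa using xy_step (n := 21) (e := 1) xy21 (by decide)
lemma xy23 : X 23 = 156059 ∧ Y 23 = 369848 := by
  simpa using xy_step (n := 22) (e := -1) xy22 (by decide)
lemma xy24 : X 24 = 681966 ∧ Y 24 = 525907 := by
  simpa using xy_step (n := 23) (e := 1) xy23 (by decide)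
lemma xy25 : X 25 = 525907 ∧ Y 25 = 1207873 := by
  simpa using xy_step (n := 24) (e := -1) xy24 (by decide)
lemma xy26 : X 26 = 2259687 ∧ Y 26 = 1733780 := by
  simpa using xy_step (n := 25) (e := 1) xy25 (by decide)
lemma xy27 : X 27 = 1733780 ∧ Y 27 = 3993467 := by
  simpa using xy_step (n := 26) (e := -1) xy26 (by decide)
lemma xy28 : X 28 = 3993467 ∧ Y 28 = 5727247 := by
  simpa using xy_step (n := 27) (e := -1) xy27 (by decide)
lemma xy29 : X 29 = 5727247 ∧ Y 29 = 9720714 := by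
  simpa using xy_step (n := 28) (e := -1) xy28 (by decide)
lemma xy30 : X 30 = 21175208 ∧ Y 30 = 15447961 := by
  simpa using xy_step (n := 29) (e := 1) xy29 (by decide)
lemma xy31 : X 31 = 15447961 ∧ Y 31 = 36623169 := by
  simpa using xy_step (n := 30) (e := -1) xy30 (by decide)
lemma xy32 : X 32 = 67519091 ∧ Y 32 = 52071130 := by
  simpa using xy_step (n := 31) (e := 1) xy31 (by decide)
lemma x2 : x 2 = 3 / 2 := by unfold x; rw [xy2.1, xy2.2]; norm_num
lemma x3 : x 3 = 2 / 5 := by unfold x; rw [xy3.1, xy3.2]; norm_num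
lemma x8 : x 8 = 83 / 64 := by unfold x; rw [xy8.1, xy8.2]; norm_num
lemma x32 : x 32 = 67519091 / 52071130 := by unfold x; rw [xy32.1, xy32.2]; norm_num

lemma x_low {n : ℕ} (hn : 1 ≤ n) : 2 / 5 ≤ x n := by
  obtain ⟨L, h1, h2⟩ := low (k := 0) (e := 0) ⟨0, rfl⟩ (Or.inl rfl)
  rw [pow_zero, mul_one] at h1 h2
  rcases h2 n hn (one_dvd _) with rfl | h
  · rw [x3]
  · rw [x3] at h1
    linarith

lemma x_up {n : ℕ} (hn : 1 ≤ n) : x n ≤ 3 / 2 := by
  rcases up (k := 0) (j := 1) ⟨0, rfl⟩ (Or.inr rfl) hn (one_dvd _) with h | h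
  · rw [h, pow_one, x2]
  · have := U_lt (j := 1) ⟨0, rfl⟩
    rw [pow_one, x2] at this
    linarith

lemma least_one : IsLeast (ratios 1 0) (2 / 7) := by
  constructor
  · refine ⟨7, by norm_num, ?_⟩
    have h3 := @rho2 3
    rw [x3] at h3
    have e : rho (4 * 3 + 2) = |(h (2 ^ 1 * 7 + 0 + 1) : ℚ)| / |(h (2 ^ 1 * 7 + 0) : ℚ)| := rfl
    rw [← e, h3]
    norm_num
  · rintro r ⟨n, hn, rfl⟩
    rw [pow_one, Nat.add_zero] at hn ⊢
    show 2 / 7 ≤ rho (2 * n)
    rcases Nat.even_or_odd' n with ⟨q, rfl | rfl⟩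
    · rw [show 2 * (2 * q) = 4 * q by ring, rho0]
      have h1 := x_up (n := q) (by omega)
      have h2 := x_pos (n := q) (by omega)
      rw [le_div_iff₀ h2]
      linarith
    · rw [show 2 * (2 * q + 1) = 4 * q + 2 by ring, rho2]
      have h1 := x_low (n := q) (by omega)
      have h2 : 1 / (1 + x q) ≤ 5 / 7 := by
        rw [div_le_div_iff₀ (by linarith) (by norm_num)]
        linarith
      linarith

lemma least_two : IsLeast (ratios 2 0) (2 / 3) ∧ IsLeast (ratios 3 0) (2 / 3) := by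
  have h1 := least_zero (k := 0) (j := 1) ⟨0, rfl⟩ (Or.inr rfl)
  have h2 := least_zero (k := 1) (j := 1) ⟨0, rfl⟩ (Or.inl rfl)
  rw [pow_one, x2, one_div_div] at h1 h2
  exact ⟨h1, h2⟩

lemma least_four : IsLeast (ratios 4 0) (64 / 83) ∧ IsLeast (ratios 5 0) (64 / 83) := by
  have h1 := least_zero (k := 2) (j := 3) ⟨1, rfl⟩ (Or.inr rfl)
  have h2 := least_zero (k := 3) (j := 3) ⟨1, rfl⟩ (Or.inl rfl)
  rw [show 2 ^ 3 = 8 by norm_num, x8, one_div_div] at h1 h2
  exact ⟨h1, h2⟩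

lemma least_six : IsLeast (ratios 6 0) (52071130 / 67519091) ∧
    IsLeast (ratios 7 0) (52071130 / 67519091) := by
  have h1 := least_zero (k := 4) (j := 5) ⟨2, rfl⟩ (Or.inr rfl)
  have h2 := least_zero (k := 5) (j := 5) ⟨2, rfl⟩ (Or.inl rfl)
  rw [show 2 ^ 5 = 32 by norm_num, x32, one_div_div] at h1 h2
  exact ⟨h1, h2⟩

end Pool.Agent.U342.TMQ
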